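import Mathlib
import Pool.Agent.H53.ZF.Pcs

set_option autoImplicit false
open Finset

/-! # T9, close tips: statements of the pieces

Let `B = BB R`, `a` the forward tip, `b` the backward tip. `nx B` walks counterclockwise along the
boundary of the box. Close tips are joined by a short walk, from `a` to `b` or from `b` to `a`.
* walk from `b` to `a`: an open path from `vx a` which uses no label of `B` ends, if it ends in the box, on
  the walk;
* walk from `a` to `b`: a dual path from `fi a` which uses no label of `B` and which ends at a label of `B`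
  ends on the walk.
Hence the strand reaches the inner box only if there is an arm of fresh labels near the tips. -/

namespace Pool.Agent.H99.ZF

open Pool.Agent.H75.Perc Pool.Agent.H75.TwoArm Pool.Agent.Q1 Pool.Agent.H47.NC Pool.Agent.ZF
open Pool.Agent.H99.NC Pool.Agent.Q1.M6c Pool.Agent.H65.Four2 Pool.Agent.H65.G1 Pool.Agent.H53.ZF

/-- walk along the boundary of the box `BB R` from `p` to `q`, at distance at most `D` from `x` -/
def Walk (R D : ℤ) (x p q : ℤ × ℤ) : Prop := ∃ n : ℕ, (nx (BB R))^[n] p = q ∧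
  ∀ i ≤ n, |(vx ((nx (BB R))^[i] p)).1 - x.1| ≤ D ∧ |(vx ((nx (BB R))^[i] p)).2 - x.2| ≤ D

/-- forward tips: the next label is in the box, the last label is not -/
def TF (R : ℤ) (a : ℤ × ℤ) : Prop := lab a ∈ BB R ∧ plab a ∉ BB R

/-- backward tips -/
def TB (R : ℤ) (b : ℤ × ℤ) : Prop := plab b ∈ BB R ∧ lab b ∉ BB R

/-- the strand from `b` to `a` outside of the box -/
def Out (R : ℤ) (w : Finset (ℤ × ℤ)) (b a : ℤ × ℤ) : Prop :=
  ∃ N : ℕ, (nx w)^[N] b = a ∧ ∀ i < N, lab ((nx w)^[i] b) ∉ BB R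

/-- piece A: close tips are joined by a short walk -/
def PA : Prop := ∀ (R D : ℤ) (a b : ℤ × ℤ), 1 ≤ R → D < R → TF R a → TB R b →
  |(vx a).1 - (vx b).1| ≤ D → |(vx a).2 - (vx b).2| ≤ D → Walk R D (vx a) a b ∨ Walk R D (vx a) b a

/-- piece B, open -/
def PB1 : Prop := ∀ (R D : ℤ) (w : Finset (ℤ × ℤ)) (a b x : ℤ × ℤ), 1 ≤ R → TF R a → TB R b →
  Out R w b a → Walk R D (vx a) b a → Co (w \ BB R) (vx a) x → |x.1| ≤ R → |x.2| ≤ R →
  |x.1 - (vx a).1| ≤ D ∧ |x.2 - (vx a).2| ≤ D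

/-- piece B, dual -/
def PB2 : Prop := ∀ (R D : ℤ) (w F : Finset (ℤ × ℤ)) (a b f e : ℤ × ℤ), 1 ≤ R → TF R a → TB R b →
  Out R w b a → Walk R D (vx a) a b → Co (du F (w ∪ BB R)) (fi a) f → e ∈ BB R → IsUnit4 (e - fc f) →
  |f.1 - (vx a).1| ≤ D + 1 ∧ |f.2 - (vx a).2| ≤ D + 1

/-- second half of `T9` -/
def T9c : Prop := ∀ (κ : ℝ), 1 < κ → ∃ Mh : ℕ, 1000 ≤ Mh ∧ ∀ (t : ℤ)
  (E W : Finset (ℤ × ℤ)) (c0 : ℤ × ℤ), Disjoint E W → (∀ e ∈ E, (e.1 + e.2) % 2 = 1) →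
  ∀ (R : ℤ), 4 * t ≤ R → BB (2 * R) ⊆ E → (2 * R < |(vx c0).1| ∨ 2 * R < |(vx c0).2|) →
  ∀ ω ⊆ E, ∀ u' : ℤ, 1 ≤ u' → Mh * u' ≤ R → Close R u' (ω ∪ W) c0 →
    Pr E (fun ω' => Alive t (mix (AR E W c0 R ω) ω ω' ∪ W) c0) ≤ κ⁻¹

/-- piece C -/
def PC : Prop := PA → PB1 → PB2 → T9c

end Pool.Agent.H99.ZF
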