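import Mathlib
import Pool.Agent.H99.ZF.ClDef

set_option autoImplicit false
open Finset

/-! # Chains of cells of one colour -/

namespace Pool.Agent.H99.ZF

open Pool.Agent.H75.Perc hiding fc BB
open Pool.Agent.H75.TwoArm Pool.Agent.Q1 Pool.Agent.H47.NC Pool.Agent.ZF
open Pool.Agent.H99.NC Pool.Agent.Q1.M6c Pool.Agent.H65.Four2 Pool.Agent.H65.G1 Pool.Agent.H53.ZF

/-- chain of steps between cells in `P` and cells in `T` -/
structure PCh (P T : ℤ × ℤ → Prop) (L : List ((ℤ × ℤ) × (ℤ × ℤ))) (s t : ℤ × ℤ) : Prop where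
  unit : ∀ st ∈ L, IsUnit4 (st.2 - st.1)
  typ : ∀ st ∈ L, (P st.1 ∧ T st.2) ∨ (T st.1 ∧ P st.2)
  sum : ∀ g : ℤ × ℤ → ℤ, (L.map fun st => g st.2 - g st.1).sum = g t - g s

lemma PCh.append {P T : ℤ × ℤ → Prop} {L L' : List ((ℤ × ℤ) × (ℤ × ℤ))} {s t u : ℤ × ℤ}
    (h : PCh P T L s t) (h' : PCh P T L' t u) : PCh P T (L ++ L') s u where
  unit := by
    intro st hst
    rcases List.mem_append.1 hst with h1 | h1
    · exact h.unit st h1
    · exact h'.unit st h1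
  typ := by
    intro st hst
    rcases List.mem_append.1 hst with h1 | h1
    · exact h.typ st h1
    · exact h'.typ st h1
  sum := by
    intro g
    rw [List.map_append, List.sum_append, h.sum, h'.sum]
    ring

lemma pch_nil (P T : ℤ × ℤ → Prop) (s : ℤ × ℤ) : PCh P T [] s s where
  unit := by intro st hst; exact absurd hst (List.not_mem_nil)
  typ := by intro st hst; exact absurd hst (List.not_mem_nil)
  sum := by intro g; simp

lemma pch_single {P T : ℤ × ℤ → Prop} {s t : ℤ × ℤ} (h : IsUnit4 (t - s))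
    (h' : (P s ∧ T t) ∨ (T s ∧ P t)) : PCh P T [(s, t)] s t where
  unit := by
    intro st hst
    rw [List.mem_singleton] at hst
    rw [hst]; exact h
  typ := by
    intro st hst
    rw [List.mem_singleton] at hst
    rw [hst]; exact h'
  sum := by intro g; simp

lemma PCh.mono {P T P' T' : ℤ × ℤ → Prop} {L : List ((ℤ × ℤ) × (ℤ × ℤ))} {s t : ℤ × ℤ}
    (h : PCh P T L s t) (hP : ∀ x, P x → P' x) (hT : ∀ x, T x → T' x) : PCh P' T' L s t where
  unit := h.unit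
  typ := fun st hst => (h.typ st hst).imp (fun h => ⟨hP _ h.1, hT _ h.2⟩)
    (fun h => ⟨hT _ h.1, hP _ h.2⟩)
  sum := h.sum

/-- vertex cells -/
def PV (s : ℤ × ℤ) : Prop := ∃ v, s = vc v

/-- face cells -/
def PF (s : ℤ × ℤ) : Prop := ∃ f, s = fc f

/-- labels with a property -/
def TT (Q : ℤ × ℤ → Prop) (s : ℤ × ℤ) : Prop := (s.1 + s.2) % 2 = 1 ∧ Q s

lemma pch_ad {w : Finset (ℤ × ℤ)} {u v : ℤ × ℤ} (h : Ad w u v) :
    ∃ L, PCh PV (TT (· ∈ w)) L (vc u) (vc v) := by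
  obtain ⟨h1, h2⟩ := h
  have hu := unit_cases h1
  have e1 : IsUnit4 ((u + v) - vc u) := by
    have : (u + v) - vc u = v - u := by
      unfold vc; ext <;> simp only [Prod.fst_sub, Prod.snd_sub, Prod.fst_add, Prod.snd_add] <;> ring
    rw [this]; exact h1
  have e2 : IsUnit4 (vc v - (u + v)) := by
    have : vc v - (u + v) = v - u := by
      unfold vc; ext <;> simp only [Prod.fst_sub, Prod.snd_sub, Prod.fst_add, Prod.snd_add] <;> ring
    rw [this]; exact h1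
  have hodd : ((u + v).1 + (u + v).2) % 2 = 1 := by
    simp only [Prod.fst_add, Prod.snd_add]
    omega
  exact ⟨_, (pch_single e1 (Or.inl ⟨⟨u, rfl⟩, hodd, h2⟩)).append
    (pch_single e2 (Or.inr ⟨⟨hodd, h2⟩, ⟨v, rfl⟩⟩))⟩

lemma pch_co {w : Finset (ℤ × ℤ)} {u v : ℤ × ℤ} (h : Co w u v) :
    ∃ L, PCh PV (TT (· ∈ w)) L (vc u) (vc v) := by
  induction h with
  | refl => exact ⟨[], pch_nil _ _ _⟩
  | tail _ hbc ih =>
    obtain ⟨L, hL⟩ := ih
    obtain ⟨L', hL'⟩ := pch_ad hbc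
    exact ⟨_, hL.append hL'⟩

/-- step between two faces -/
lemma pch_face {f g : ℤ × ℤ} {P Q : ℤ × ℤ → Prop} (h1 : IsUnit4 (g - f)) (hf : P (fc f))
    (hg : P (fc g)) (h2 : Q (f + g - (1, 1))) :
    ∃ L, PCh P (TT Q) L (fc f) (fc g) := by
  have hu := unit_cases h1
  have e1 : IsUnit4 ((f + g - (1, 1)) - fc f) := by
    have : (f + g - (1, 1)) - fc f = g - f := by
      unfold fc
      ext <;> simp only [Prod.fst_sub, Prod.snd_sub, Prod.fst_add, Prod.snd_add] <;> ring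
    rw [this]; exact h1
  have e2 : IsUnit4 (fc g - (f + g - (1, 1))) := by
    have : fc g - (f + g - (1, 1)) = g - f := by
      unfold fc
      ext <;> simp only [Prod.fst_sub, Prod.snd_sub, Prod.fst_add, Prod.snd_add] <;> ring
    rw [this]; exact h1
  have hodd : ((f + g - (1, 1)).1 + (f + g - (1, 1)).2) % 2 = 1 := by
    simp only [Prod.fst_sub, Prod.snd_sub, Prod.fst_add, Prod.snd_add]
    omega
  exact ⟨_, (pch_single e1 (Or.inl ⟨hf, hodd, h2⟩)).append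
    (pch_single e2 (Or.inr ⟨⟨hodd, h2⟩, hg⟩))⟩

lemma pch_dual {F w : Finset (ℤ × ℤ)} {f g : ℤ × ℤ} (h : Ad (du F w) f g) :
    ∃ L, PCh PF (TT (· ∉ w)) L (fc f) (fc g) := by
  obtain ⟨h1, h2⟩ := h
  unfold du at h2
  rw [mem_map] at h2
  obtain ⟨l, hl, he⟩ := h2
  rw [mem_sdiff] at hl
  have he1 : l = f + g - (1, 1) := by
    rw [← he]
    refine Prod.ext ?_ ?_ <;> simp [sh1]
  exact pch_face h1 ⟨f, rfl⟩ ⟨g, rfl⟩ (he1 ▸ hl.2)

lemma pch_dco {F w : Finset (ℤ × ℤ)} {f g : ℤ × ℤ} (h : Co (du F w) f g) :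
    ∃ L, PCh PF (TT (· ∉ w)) L (fc f) (fc g) := by
  induction h with
  | refl => exact ⟨[], pch_nil _ _ _⟩
  | tail _ hbc ih =>
    obtain ⟨L, hL⟩ := ih
    obtain ⟨L', hL'⟩ := pch_dual hbc
    exact ⟨_, hL.append hL'⟩

/-! ### Crossings -/

lemma TT_ne_vc {Q : ℤ × ℤ → Prop} {s : ℤ × ℤ} (h : TT Q s) (v : ℤ × ℤ) : s ≠ vc v :=
  fun he => absurd (vc_odd v) (by rw [← he]; have := h.1; omega)

lemma TT_ne_fc {Q : ℤ × ℤ → Prop} {s : ℤ × ℤ} (h : TT Q s) (f : ℤ × ℤ) : s ≠ fc f :=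
  fun he => absurd (fc_odd f) (by rw [← he]; have := h.1; omega)

/-- an open step is crossed only at closed labels -/
lemma cx_open {w : Finset (ℤ × ℤ)} {Q : ℤ × ℤ → Prop} {s s' c : ℤ × ℤ}
    (h : (PV s ∧ TT Q s') ∨ (TT Q s ∧ PV s')) (hc : lab c ∈ w ∨ ¬ Q (lab c)) :
    cx s s' c (nx w c) = 0 := by
  rw [cx_nx]
  by_cases hl : lab c ∈ w
  · rw [if_pos hl]
    rcases h with ⟨⟨v, rfl⟩, h2⟩ | ⟨h2, ⟨v, rfl⟩⟩
    · rw [if_neg (fun h => vc_ne_fc _ _ h.1), if_neg (fun h => TT_ne_fc h2 _ h.2)]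
      norm_num
    · rw [if_neg (fun h => TT_ne_fc h2 _ h.1), if_neg (fun h => vc_ne_fc _ _ h.2)]
      norm_num
  · have hq : ¬ Q (lab c) := hc.resolve_left hl
    rw [if_neg hl]
    rcases h with ⟨⟨v, rfl⟩, h2⟩ | ⟨h2, ⟨v, rfl⟩⟩
    · rw [if_neg (fun h => TT_ne_vc h2 _ h.2), if_neg (fun h : _ ∧ _ = lab c => hq (h.2 ▸ h2.2))]
      norm_num
    · rw [if_neg (fun h : _ = lab c ∧ _ => hq (h.1 ▸ h2.2)), if_neg (fun h => TT_ne_vc h2 _ h.1)]
      norm_num

/-- a dual step is crossed only at open labels -/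
lemma cx_dual {w : Finset (ℤ × ℤ)} {Q : ℤ × ℤ → Prop} {s s' c : ℤ × ℤ}
    (h : (PF s ∧ TT Q s') ∨ (TT Q s ∧ PF s')) (hc : lab c ∉ w ∨ ¬ Q (lab c)) :
    cx s s' c (nx w c) = 0 := by
  rw [cx_nx]
  by_cases hl : lab c ∈ w
  · have hq : ¬ Q (lab c) := hc.resolve_left (not_not.2 hl)
    rw [if_pos hl]
    rcases h with ⟨⟨v, rfl⟩, h2⟩ | ⟨h2, ⟨v, rfl⟩⟩
    · rw [if_neg (fun h : _ ∧ _ = lab c => hq (h.2 ▸ h2.2)), if_neg (fun h => TT_ne_fc h2 _ h.2)]
      norm_num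
    · rw [if_neg (fun h => TT_ne_fc h2 _ h.1), if_neg (fun h : _ = lab c ∧ _ => hq (h.1 ▸ h2.2))]
      norm_num
  · rw [if_neg hl]
    rcases h with ⟨⟨v, rfl⟩, h2⟩ | ⟨h2, ⟨v, rfl⟩⟩
    · rw [if_neg (fun h => TT_ne_vc h2 _ h.2), if_neg (fun h => vc_ne_fc _ _ h.1.symm)]
      norm_num
    · rw [if_neg (fun h => vc_ne_fc _ _ h.2.symm), if_neg (fun h => TT_ne_vc h2 _ h.1)]
      norm_num

lemma Cx_eq_zero {L : List ((ℤ × ℤ) × (ℤ × ℤ))} {p p' : ℤ × ℤ}
    (h : ∀ st ∈ L, cx st.1 st.2 p p' = 0) : Cx L p p' = 0 := by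
  unfold Cx
  rw [List.map_congr_left h]
  simp

lemma PCh.open_zero {w : Finset (ℤ × ℤ)} {Q : ℤ × ℤ → Prop} {L : List ((ℤ × ℤ) × (ℤ × ℤ))}
    {s t c : ℤ × ℤ} (h : PCh PV (TT Q) L s t) (hc : lab c ∈ w ∨ ¬ Q (lab c)) :
    Cx L c (nx w c) = 0 := Cx_eq_zero fun st hst => cx_open (h.typ st hst) hc

lemma PCh.dual_zero {w : Finset (ℤ × ℤ)} {Q : ℤ × ℤ → Prop} {L : List ((ℤ × ℤ) × (ℤ × ℤ))}
    {s t c : ℤ × ℤ} (h : PCh PF (TT Q) L s t) (hc : lab c ∉ w ∨ ¬ Q (lab c)) :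
    Cx L c (nx w c) = 0 := Cx_eq_zero fun st hst => cx_dual (h.typ st hst) hc

/-! ### Rectangles are connected (copied from H49/Q1/Harnack) -/

lemma row_conn {a b c d : ℤ} {x y : ℤ} (hy : c ≤ y ∧ y ≤ d) (n : ℕ) (h1 : a ≤ x) (h2 : x + n ≤ b) :
    Co (Bx a b c d) (x, y) (x + n, y) := by
  induction n with
  | zero => simpa using Co.refl _ _
  | succ n ih =>
    push_cast at h2
    have h3 : IsUnit4 (((x + ((n + 1 : ℕ) : ℤ), y) : ℤ × ℤ) - (x + (n : ℤ), y)) := by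
      unfold IsUnit4
      simp only [Prod.ext_iff, Prod.fst_sub, Prod.snd_sub]
      push_cast
      omega
    refine (ih (by omega)).tail ⟨h3, add_mem_Bx h3 ?_ ?_⟩
    · unfold inB; simp only; omega
    · unfold inB; simp only; push_cast; omega

lemma col_conn {a b c d : ℤ} {x y : ℤ} (hx : a ≤ x ∧ x ≤ b) (n : ℕ) (h1 : c ≤ y) (h2 : y + n ≤ d) :
    Co (Bx a b c d) (x, y) (x, y + n) := by
  induction n with
  | zero => simpa using Co.refl _ _
  | succ n ih =>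
    push_cast at h2
    have h3 : IsUnit4 (((x, y + ((n + 1 : ℕ) : ℤ)) : ℤ × ℤ) - (x, y + (n : ℤ))) := by
      unfold IsUnit4
      simp only [Prod.ext_iff, Prod.fst_sub, Prod.snd_sub]
      push_cast
      omega
    refine (ih (by omega)).tail ⟨h3, add_mem_Bx h3 ?_ ?_⟩
    · unfold inB; simp only; omega
    · unfold inB; simp only; push_cast; omega

/-- Rectangles are connected. -/
lemma Bx_conn {a b c d : ℤ} {u v : ℤ × ℤ} (hu : inB a b c d u) (hv : inB a b c d v) :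
    Co (Bx a b c d) u v := by
  have h1 : Co (Bx a b c d) u (a, u.2) := by
    obtain ⟨n, hn⟩ : ∃ n : ℕ, u.1 = a + n := ⟨(u.1 - a).toNat, by unfold inB at hu; omega⟩
    have := row_conn (a := a) (b := b) (c := c) (d := d) (x := a) (y := u.2) hu.2 n le_rfl
      (by unfold inB at hu; omega)
    rw [← hn] at this
    exact this.symm
  have h2 : Co (Bx a b c d) v (a, v.2) := by
    obtain ⟨n, hn⟩ : ∃ n : ℕ, v.1 = a + n := ⟨(v.1 - a).toNat, by unfold inB at hv; omega⟩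
    have := row_conn (a := a) (b := b) (c := c) (d := d) (x := a) (y := v.2) hv.2 n le_rfl
      (by unfold inB at hv; omega)
    rw [← hn] at this
    exact this.symm
  have hab : a ≤ a ∧ a ≤ b := by unfold inB at hu; omega
  have h3 : Co (Bx a b c d) (a, c) (a, u.2) := by
    obtain ⟨n, hn⟩ : ∃ n : ℕ, u.2 = c + n := ⟨(u.2 - c).toNat, by unfold inB at hu; omega⟩
    have := col_conn (a := a) (b := b) (c := c) (d := d) (x := a) (y := c) hab n le_rfl
      (by unfold inB at hu; omega)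
    rwa [← hn] at this
  have h4 : Co (Bx a b c d) (a, c) (a, v.2) := by
    obtain ⟨n, hn⟩ : ∃ n : ℕ, v.2 = c + n := ⟨(v.2 - c).toNat, by unfold inB at hv; omega⟩
    have := col_conn (a := a) (b := b) (c := c) (d := d) (x := a) (y := c) hab n le_rfl
      (by unfold inB at hv; omega)
    rwa [← hn] at this
  exact ((h1.trans h3.symm).trans h4).trans h2.symm

/-- interior faces of the box -/
def PI (R : ℤ) (s : ℤ × ℤ) : Prop := ∃ f : ℤ × ℤ, s = fc f ∧ inB (-R + 1) R (-R + 1) R f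

/-- the interior faces are joined by the labels of the box -/
lemma pch_int {R : ℤ} {f g : ℤ × ℤ} (hf : inB (-R + 1) R (-R + 1) R f)
    (hg : inB (-R + 1) R (-R + 1) R g) : ∃ L, PCh (PI R) (TT (· ∈ BB R)) L (fc f) (fc g) := by
  have h := Bx_conn hf hg
  have key : ∀ g, Co (Bx (-R + 1) R (-R + 1) R) f g →
      inB (-R + 1) R (-R + 1) R g ∧ ∃ L, PCh (PI R) (TT (· ∈ BB R)) L (fc f) (fc g) := by
    intro g h
    induction h with
    | refl => exact ⟨hf, [], pch_nil _ _ _⟩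
    | @tail b c _ hbc ih =>
      obtain ⟨hb, L, hL⟩ := ih
      have hc := (hbc.inB (subset_refl _)).2
      obtain ⟨L', hL'⟩ := pch_face (f := b) (g := c) (P := PI R) (Q := (· ∈ BB R)) hbc.1
        ⟨b, rfl, hb⟩ ⟨c, rfl, hc⟩ (by
          have h1 := mem_Bx.1 hbc.2
          unfold BB
          rw [mem_Bx]
          simp only [Prod.fst_sub, Prod.snd_sub, Prod.fst_add, Prod.snd_add] at h1 ⊢
          unfold inB at hb hc
          omega)
      exact ⟨hc, _, hL.append hL'⟩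
  exact (key g h).2

/-- every label of the box has an interior face -/
lemma exists_int {R : ℤ} (hR : 1 ≤ R) {e : ℤ × ℤ} (he : e ∈ BB R) :
    ∃ f, inB (-R + 1) R (-R + 1) R f ∧ IsUnit4 (fc f - e) := by
  unfold BB at he
  rw [mem_Bx] at he
  obtain ⟨e1, e2⟩ := e
  simp only at he
  rcases (show e1 % 2 = 0 ∨ e1 % 2 = 1 by omega) with h | h
  · by_cases h2 : e1 < 2 * R
    · refine ⟨((e1 + 2) / 2, (e2 + 1) / 2), ?_, ?_⟩
      · unfold inB; simp only; omega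
      · unfold IsUnit4 fc; simp only [Prod.ext_iff, Prod.fst_sub, Prod.snd_sub]; omega
    · refine ⟨(e1 / 2, (e2 + 1) / 2), ?_, ?_⟩
      · unfold inB; simp only; omega
      · unfold IsUnit4 fc; simp only [Prod.ext_iff, Prod.fst_sub, Prod.snd_sub]; omega
  · by_cases h2 : e2 < 2 * R
    · refine ⟨((e1 + 1) / 2, (e2 + 2) / 2), ?_, ?_⟩
      · unfold inB; simp only; omega
      · unfold IsUnit4 fc; simp only [Prod.ext_iff, Prod.fst_sub, Prod.snd_sub]; omega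
    · refine ⟨((e1 + 1) / 2, e2 / 2), ?_, ?_⟩
      · unfold inB; simp only; omega
      · unfold IsUnit4 fc; simp only [Prod.ext_iff, Prod.fst_sub, Prod.snd_sub]; omega

end Pool.Agent.H99.ZF
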