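import Mathlib
import Pool.Agent.H99.ZF.Chain

set_option autoImplicit false
open Finset

/-! # T9, close tips: the crossing arguments -/

namespace Pool.Agent.H99.ZF

open Pool.Agent.H75.Perc hiding fc BB
open Pool.Agent.H75.TwoArm Pool.Agent.Q1 Pool.Agent.H47.NC Pool.Agent.ZF
open Pool.Agent.H99.NC Pool.Agent.Q1.M6c Pool.Agent.H65.Four2 Pool.Agent.H65.G1 Pool.Agent.H53.ZF

/-- corners on the outer boundary of the box -/
def BC (R : ℤ) (c : ℤ × ℤ) : Prop := (-(2 * R) ≤ c.1 ∧ c.1 ≤ 2 * R + 1) ∧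
  (-(2 * R) ≤ c.2 ∧ c.2 ≤ 2 * R + 1) ∧
  (c.1 = -(2 * R) ∨ c.1 = 2 * R + 1 ∨ c.2 = -(2 * R) ∨ c.2 = 2 * R + 1)

lemma mem_BB {R : ℤ} {e : ℤ × ℤ} : e ∈ BB R ↔
    (2 * -R ≤ e.1 ∧ e.1 ≤ 2 * R) ∧ (2 * -R ≤ e.2 ∧ e.2 ≤ 2 * R) ∧ (e.1 + e.2) % 2 = 1 := by
  unfold BB; exact mem_Bx

lemma BC_nx {R : ℤ} (_hR : 1 ≤ R) {c : ℤ × ℤ} (h : BC R c) : BC R (nx (BB R) c) := by
  unfold BC at h ⊢
  unfold nx
  rcases ty_cases c with ⟨-, h1, h2, h3, h4, h5⟩ | ⟨-, h1, h2, h3, h4, h5⟩ |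
      ⟨-, h1, h2, h3, h4, h5⟩ | ⟨-, h1, h2, h3, h4, h5⟩ <;> rw [h3, h4, h5] <;>
    split_ifs with h6 <;> rw [mem_BB] at h6 <;> simp only at h6 ⊢ <;> omega

lemma BC_iter {R : ℤ} (hR : 1 ≤ R) {c : ℤ × ℤ} (h : BC R c) (i : ℕ) : BC R ((nx (BB R))^[i] c) := by
  induction i with
  | zero => exact h
  | succ i ih => rw [Function.iterate_succ_apply']; exact BC_nx hR ih

lemma BC_TF {R : ℤ} {a : ℤ × ℤ} (h : TF R a) : BC R a := by
  obtain ⟨h1, h2⟩ := h
  obtain ⟨a1, a2⟩ := a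
  rw [mem_BB] at h1 h2
  unfold BC
  unfold plab at h2
  rcases ty_cases (a1, a2) with ⟨-, g1, g2, h3, -⟩ | ⟨-, g1, g2, h3, -⟩ |
      ⟨-, g1, g2, h3, -⟩ | ⟨-, g1, g2, h3, -⟩ <;> rw [h3] at h1 <;> simp only at g1 g2 h1 h2 ⊢ <;>
    split_ifs at h2 <;> first | (exfalso; omega) | (simp only at h2; omega)

lemma BC_TB {R : ℤ} {a : ℤ × ℤ} (h : TB R a) : BC R a := by
  obtain ⟨h2, h1⟩ := h
  obtain ⟨a1, a2⟩ := a
  rw [mem_BB] at h1 h2
  unfold BC
  unfold plab at h2
  rcases ty_cases (a1, a2) with ⟨-, g1, g2, h3, -⟩ | ⟨-, g1, g2, h3, -⟩ |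
      ⟨-, g1, g2, h3, -⟩ | ⟨-, g1, g2, h3, -⟩ <;> rw [h3] at h1 <;> simp only at g1 g2 h1 h2 ⊢ <;>
    split_ifs at h2 <;> first | (exfalso; omega) | (simp only at h2; omega)

/-- the other corners with exterior face at the vertex of an outward label -/
lemma corner_cases {R : ℤ} (hR : 1 ≤ R) {g d : ℤ × ℤ} (hg : BC R g) (hv : vx d = vx g)
    (hd : lab d ∉ BB R) : d = g ∨ nxC d = g ∨ (nxC (nxC d) = g ∧ lab (nxC d) ∉ BB R) ∨
      (nxC g = d ∧ lab g ∉ BB R) := by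
  obtain ⟨g1, g2⟩ := g
  obtain ⟨d1, d2⟩ := d
  have hv1 := congrArg Prod.fst hv
  have hv2 := congrArg Prod.snd hv
  unfold vx at hv1 hv2
  unfold BC at hg
  simp only at hv1 hv2 hg
  have hlab : ∀ a b : ℤ, (lab (a, b) ∉ BB R) ↔
      ¬ ((2 * -R ≤ (lab (a, b)).1 ∧ (lab (a, b)).1 ≤ 2 * R) ∧
        (2 * -R ≤ (lab (a, b)).2 ∧ (lab (a, b)).2 ≤ 2 * R) ∧
        ((lab (a, b)).1 + (lab (a, b)).2) % 2 = 1) := fun a b => not_congr mem_BB
  rcases ty_cases (d1, d2) with ⟨-, k1, k2, h3, h4, -⟩ | ⟨-, k1, k2, h3, h4, -⟩ |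
      ⟨-, k1, k2, h3, h4, -⟩ | ⟨-, k1, k2, h3, h4, -⟩ <;> simp only at k1 k2 h3 h4 <;>
    rw [h3, mem_BB] at hd <;> simp only at hd <;> rw [h4]
  · -- SW
    have hd' : d2 = -(2 * R) := by omega
    rcases (show (g1 = d1 ∨ g1 = d1 + 1) ∧ (g2 = d2 ∨ g2 = d2 + 1) by omega) with
      ⟨rfl | rfl, rfl | rfl⟩
    · left; rfl
    · right; right; right
      rw [hlab]
      unfold nxC lab
      have e1 : (d2 + 1) % 2 ≠ 0 := by omega
      simp only [e1, k1, if_true, if_false]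
      refine ⟨by refine Prod.ext rfl ?_; simp only; omega, ?_⟩
      omega
    · right; left; rfl
    · right; right; left
      rw [hlab]
      unfold nxC lab
      have e1 : (d1 + 1) % 2 ≠ 0 := by omega
      simp only [e1, k2, if_true, if_false]
      refine ⟨trivial, ?_⟩
      omega
  · -- SE
    have hd' : d1 = 2 * R + 1 := by omega
    rcases (show (g1 = d1 ∨ g1 = d1 - 1) ∧ (g2 = d2 ∨ g2 = d2 + 1) by omega) with
      ⟨rfl | rfl, rfl | rfl⟩
    · left; rfl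
    · right; left; rfl
    · right; right; right
      rw [hlab]
      unfold nxC lab
      have e1 : (d1 - 1) % 2 = 0 := by omega
      simp only [e1, k2, if_true]
      refine ⟨by refine Prod.ext ?_ rfl; simp only; omega, ?_⟩
      omega
    · right; right; left
      rw [hlab]
      unfold nxC lab
      have e1 : (d2 + 1) % 2 ≠ 0 := by omega
      have e2 : d1 % 2 ≠ 0 := by omega
      simp only [e1, e2, if_false]
      refine ⟨trivial, ?_⟩
      omega
  · -- NE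
    have hd' : d2 = 2 * R + 1 := by omega
    rcases (show (g1 = d1 ∨ g1 = d1 - 1) ∧ (g2 = d2 ∨ g2 = d2 - 1) by omega) with
      ⟨rfl | rfl, rfl | rfl⟩
    · left; rfl
    · right; right; right
      rw [hlab]
      unfold nxC lab
      have e1 : (d2 - 1) % 2 = 0 := by omega
      have e2 : g1 % 2 ≠ 0 := by omega
      simp only [e1, e2, if_true, if_false]
      refine ⟨by refine Prod.ext rfl ?_; simp only; omega, ?_⟩
      omega
    · right; left; rfl
    · right; right; left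
      rw [hlab]
      unfold nxC lab
      have e1 : (d1 - 1) % 2 = 0 := by omega
      have e2 : d2 % 2 ≠ 0 := by omega
      simp only [e1, e2, if_true, if_false]
      refine ⟨trivial, ?_⟩
      omega
  · -- NW
    have hd' : d1 = -(2 * R) := by omega
    rcases (show (g1 = d1 ∨ g1 = d1 + 1) ∧ (g2 = d2 ∨ g2 = d2 - 1) by omega) with
      ⟨rfl | rfl, rfl | rfl⟩
    · left; rfl
    · right; left; rfl
    · right; right; right
      rw [hlab]
      unfold nxC lab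
      have e1 : (d1 + 1) % 2 ≠ 0 := by omega
      have e2 : g2 % 2 ≠ 0 := by omega
      simp only [e1, e2, if_false]
      refine ⟨by refine Prod.ext ?_ rfl; simp only; omega, ?_⟩
      omega
    · right; right; left
      rw [hlab]
      unfold nxC lab
      have e1 : (d2 - 1) % 2 = 0 := by omega
      simp only [e1, k1, if_true]
      refine ⟨trivial, ?_⟩
      omega

/-- the corner with a given vertex and next label -/
lemma exists_corner {v t : ℤ × ℤ} (h : IsUnit4 (t - vc v)) : ∃ d, vx d = v ∧ lab d = t := by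
  obtain ⟨v1, v2⟩ := v
  obtain ⟨t1, t2⟩ := t
  unfold IsUnit4 vc at h
  simp only [Prod.ext_iff, Prod.fst_sub, Prod.snd_sub] at h
  have h : (t1 - 2 * v1 = 1 ∧ t2 - 2 * v2 = 0) ∨ (t1 - 2 * v1 = 0 ∧ t2 - 2 * v2 = 1) ∨
      (t1 - 2 * v1 = -1 ∧ t2 - 2 * v2 = 0) ∨ (t1 - 2 * v1 = 0 ∧ t2 - 2 * v2 = -1) := by
    rcases h with h | h | h | h <;> omega
  rcases h with h | h | h | h
  · refine ⟨(2 * v1 + 1, 2 * v2), ?_, ?_⟩
    · unfold vx; refine Prod.ext ?_ ?_ <;> simp only <;> omega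
    · unfold lab
      have e1 : (2 * v1 + 1) % 2 ≠ 0 := by omega
      have e2 : (2 * v2) % 2 = 0 := by omega
      simp only [e1, e2, if_true, if_false, Prod.mk.injEq]
      omega
  · refine ⟨(2 * v1 + 1, 2 * v2 + 1), ?_, ?_⟩
    · unfold vx; refine Prod.ext ?_ ?_ <;> simp only <;> omega
    · unfold lab
      have e1 : (2 * v1 + 1) % 2 ≠ 0 := by omega
      have e2 : (2 * v2 + 1) % 2 ≠ 0 := by omega
      simp only [e1, e2, if_false, Prod.mk.injEq]
      omega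
  · refine ⟨(2 * v1, 2 * v2 + 1), ?_, ?_⟩
    · unfold vx; refine Prod.ext ?_ ?_ <;> simp only <;> omega
    · unfold lab
      have e1 : (2 * v1) % 2 = 0 := by omega
      have e2 : (2 * v2 + 1) % 2 ≠ 0 := by omega
      simp only [e1, e2, if_true, if_false, Prod.mk.injEq]
      omega
  · refine ⟨(2 * v1, 2 * v2), ?_, ?_⟩
    · unfold vx; refine Prod.ext ?_ ?_ <;> simp only <;> omega
    · unfold lab
      have e1 : (2 * v1) % 2 = 0 := by omega
      have e2 : (2 * v2) % 2 = 0 := by omega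
      simp only [e1, e2, if_true, Prod.mk.injEq]
      omega

lemma nx_out {R : ℤ} {d : ℤ × ℤ} (hd : lab d ∉ BB R) : nx (BB R) d = nxC d := by
  unfold nx; rw [if_neg hd]

/-- the walk from `b` to `a` passes all outward labels of its vertices -/
lemma visited {R : ℤ} (hR : 1 ≤ R) {a b : ℤ × ℤ} {n : ℕ} (hb : TB R b) (ha : TF R a)
    (hn : (nx (BB R))^[n] b = a) {j : ℕ} (hj : j ≤ n) {d : ℤ × ℤ}
    (hv : vx d = vx ((nx (BB R))^[j] b)) (hd : lab d ∉ BB R) :
    ∃ i < n, (nx (BB R))^[i] b = d := by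
  have hlt : ∀ k ≤ n, lab ((nx (BB R))^[k] b) ∉ BB R → k < n := by
    intro k hk h
    rcases lt_or_eq_of_le hk with h1 | h1
    · exact h1
    · exact absurd ha.1 (by rw [← hn, ← h1]; exact h)
  have hprev : ∀ k ≤ n, ∀ d' : ℤ × ℤ, lab d' ∉ BB R → nxC d' = (nx (BB R))^[k] b →
      ∃ i < k, (nx (BB R))^[i] b = d' := by
    intro k hk d' hd' h
    rw [← nx_out hd'] at h
    rcases k with _ | k
    · exfalso
      have h1 : plab b = lab d' := by
        have := congrArg plab h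
        rw [plab_nx] at this
        exact this.symm
      exact hd' (h1 ▸ hb.1)
    · refine ⟨k, Nat.lt_succ_self k, ?_⟩
      rw [Function.iterate_succ_apply'] at h
      exact (nx_injective _ h).symm
  rcases corner_cases hR (BC_iter hR (BC_TB hb) j) hv hd with h | h | ⟨h, h'⟩ | ⟨h, h'⟩
  · exact ⟨j, hlt j hj (h ▸ hd), h.symm⟩
  · obtain ⟨i, hi, h1⟩ := hprev j hj d hd h
    exact ⟨i, by omega, h1⟩
  · obtain ⟨i, hi, h1⟩ := hprev j hj (nxC d) h' h
    obtain ⟨i', hi', h2⟩ := hprev i (by omega) d hd h1.symm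
    exact ⟨i', by omega, h2⟩
  · have h1 := hlt j hj h'
    have h2 : (nx (BB R))^[j + 1] b = d := by
      rw [Function.iterate_succ_apply', nx_out h', h]
    exact ⟨j + 1, hlt (j + 1) h1 (by rw [h2]; exact hd), h2⟩

lemma iter_ne {α : Type*} {f : α → α} {b a : α} {n : ℕ} (hn : f^[n] b = a)
    (hmin : ∀ i < n, f^[i] b ≠ a) {i j : ℕ} (hij : i < j) (hj : j < n) : f^[i] b ≠ f^[j] b := by
  intro h
  apply hmin (n - j + i) (by omega)
  rw [Function.iterate_add_apply, h, ← Function.iterate_add_apply, show n - j + j = n by omega, hn]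

lemma vc_inj {u v : ℤ × ℤ} (h : vc u = vc v) : u = v := by
  have h3 := congrArg Prod.fst h
  have h4 := congrArg Prod.snd h
  unfold vc at h3 h4
  simp only at h3 h4
  exact Prod.ext (by omega) (by omega)

lemma fc_inj {u v : ℤ × ℤ} (h : fc u = fc v) : u = v := by
  have h3 := congrArg Prod.fst h
  have h4 := congrArg Prod.snd h
  unfold fc at h3 h4
  simp only at h3 h4
  exact Prod.ext (by omega) (by omega)

open Classical in
/-- potential: vertices of the walk -/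
noncomputable def pot (R : ℤ) (b : ℤ × ℤ) (n : ℕ) (s : ℤ × ℤ) : ℤ :=
  if ∃ j ≤ n, s = vc (vx ((nx (BB R))^[j] b)) then 1 else 0

lemma cx_sum_vt {R : ℤ} (hR : 1 ≤ R) {a b : ℤ × ℤ} {n : ℕ} (hb : TB R b) (ha : TF R a)
    (hn : (nx (BB R))^[n] b = a) (hmin : ∀ i < n, (nx (BB R))^[i] b ≠ a) {Q : ℤ × ℤ → Prop}
    (hQ : ∀ t, Q t → t ∉ BB R) {v t : ℤ × ℤ} (ht : TT Q t) (hu : IsUnit4 (t - vc v)) :
    ∑ i ∈ range n, ((if t = lab ((nx (BB R))^[i] b) ∧ v = vx ((nx (BB R))^[i] b) then 1 else 0) : ℤ)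
      = pot R b n (vc v) := by
  obtain ⟨d, hd1, hd2⟩ := exists_corner hu
  have hdB : lab d ∉ BB R := hd2 ▸ hQ _ ht.2
  have hiff : ∀ c : ℤ × ℤ, (t = lab c ∧ v = vx c) ↔ c = d := by
    intro c
    constructor
    · rintro ⟨h1, h2⟩
      exact corner_vx (h1.symm.trans hd2.symm) (h2.symm.trans hd1.symm)
    · rintro rfl
      exact ⟨hd2.symm, hd1.symm⟩
  simp only [hiff]
  unfold pot
  by_cases h : ∃ j ≤ n, vc v = vc (vx ((nx (BB R))^[j] b))
  · rw [if_pos h]
    obtain ⟨j, hj, h1⟩ := h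
    obtain ⟨i, hi, h2⟩ := visited hR hb ha hn hj (hd1.trans (vc_inj h1)) hdB
    rw [sum_eq_single i]
    · rw [if_pos h2]
    · intro k hk hki
      rw [if_neg]
      intro h3
      rcases lt_or_gt_of_ne hki with h4 | h4
      · exact iter_ne hn hmin h4 hi (h3.trans h2.symm)
      · exact iter_ne hn hmin h4 (mem_range.1 hk) (h2.trans h3.symm)
    · intro h3
      exact absurd (mem_range.2 hi) h3
  · rw [if_neg h]
    apply sum_eq_zero
    intro i hi
    rw [if_neg]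
    intro h2
    exact h ⟨i, (mem_range.1 hi).le, by rw [h2, hd1]⟩

lemma pot_TT {R : ℤ} {b : ℤ × ℤ} {n : ℕ} {Q : ℤ × ℤ → Prop} {t : ℤ × ℤ} (ht : TT Q t) :
    pot R b n t = 0 := by
  unfold pot
  rw [if_neg]
  rintro ⟨j, -, h⟩
  exact TT_ne_vc ht _ h

lemma cx_sum {R : ℤ} (hR : 1 ≤ R) {a b : ℤ × ℤ} {n : ℕ} (hb : TB R b) (ha : TF R a)
    (hn : (nx (BB R))^[n] b = a) (hmin : ∀ i < n, (nx (BB R))^[i] b ≠ a) {Q : ℤ × ℤ → Prop}
    (hQ : ∀ t, Q t → t ∉ BB R) {s s' : ℤ × ℤ} (h : (PV s ∧ TT Q s') ∨ (TT Q s ∧ PV s'))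
    (hu : IsUnit4 (s' - s)) :
    ∑ i ∈ range n, cx s s' ((nx (BB R))^[i] b) (nx (BB R) ((nx (BB R))^[i] b)) =
      pot R b n s' - pot R b n s := by
  rcases h with ⟨⟨v, rfl⟩, h2⟩ | ⟨h2, ⟨v, rfl⟩⟩
  · rw [pot_TT h2, zero_sub, ← cx_sum_vt hR hb ha hn hmin hQ h2 hu, ← sum_neg_distrib]
    apply sum_congr rfl
    intro i _
    set c := (nx (BB R))^[i] b
    rw [cx_nx]
    by_cases hl : lab c ∈ BB R
    · rw [if_pos hl, if_neg (fun h => vc_ne_fc _ _ h.1), if_neg (fun h => TT_ne_fc h2 _ h.2), if_neg]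
      · norm_num
      · rintro ⟨h3, -⟩
        exact hQ _ h2.2 (h3 ▸ hl)
    · rw [if_neg hl, if_neg (fun h => TT_ne_vc h2 _ h.2)]
      by_cases h3 : s' = lab c ∧ v = vx c
      · rw [if_pos h3, if_pos ⟨by rw [h3.2], h3.1⟩]; norm_num
      · rw [if_neg h3, if_neg]
        · norm_num
        · rintro ⟨h4, h5⟩
          exact h3 ⟨h5, vc_inj h4⟩
  · rw [pot_TT h2, sub_zero, ← cx_sum_vt hR hb ha hn hmin hQ h2 (unit_neg hu)]
    apply sum_congr rfl
    intro i _
    set c := (nx (BB R))^[i] b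
    rw [cx_nx]
    by_cases hl : lab c ∈ BB R
    · rw [if_pos hl, if_neg (fun h => TT_ne_fc h2 _ h.1), if_neg (fun h => vc_ne_fc _ _ h.2), if_neg]
      · norm_num
      · rintro ⟨h3, -⟩
        exact hQ _ h2.2 (h3 ▸ hl)
    · have h9 : ¬ (s = vc (vx c) ∧ vc v = lab c) := fun h => TT_ne_vc h2 _ h.1
      rw [if_neg hl, if_neg h9]
      by_cases h3 : s = lab c ∧ v = vx c
      · rw [if_pos h3, if_pos ⟨h3.1, by rw [h3.2]⟩]; norm_num
      · rw [if_neg h3, if_neg]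
        · norm_num
        · rintro ⟨h4, h5⟩
          exact h3 ⟨h4, vc_inj h5⟩

lemma sum_Cx {L : List ((ℤ × ℤ) × (ℤ × ℤ))} (n : ℕ) (p p' : ℕ → ℤ × ℤ) {g : ℤ × ℤ → ℤ}
    (h : ∀ st ∈ L, ∑ i ∈ range n, cx st.1 st.2 (p i) (p' i) = g st.2 - g st.1) :
    ∑ i ∈ range n, Cx L (p i) (p' i) = (L.map fun st => g st.2 - g st.1).sum := by
  induction L with
  | nil => unfold Cx; simp
  | cons st L ih =>
    have h1 := ih fun st' hst' => h st' (List.mem_cons_of_mem _ hst')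
    have h2 := h st List.mem_cons_self
    rw [List.map_cons, List.sum_cons, ← h1, ← h2, ← sum_add_distrib]
    apply sum_congr rfl
    intro i _
    unfold Cx
    rw [List.map_cons, List.sum_cons]

/-- strands outside of the box do not cross chains -/
lemma Wd_out {R : ℤ} {w : Finset (ℤ × ℤ)} {b a : ℤ × ℤ} (hO : Out R w b a)
    {L : List ((ℤ × ℤ) × (ℤ × ℤ))} (hL : Clo L)
    (h : ∀ c, lab c ∉ BB R → Cx L c (nx w c) = 0) : Wd L b = Wd L a := by
  obtain ⟨N, hN, hN'⟩ := hO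
  have h1 := Wd_strand (w := w) hL b N
  rw [hN, sum_eq_zero fun i hi => h _ (hN' i (mem_range.1 hi))] at h1
  linarith

lemma min_walk {R : ℤ} {p q : ℤ × ℤ} {n : ℕ} (hn : (nx (BB R))^[n] p = q) :
    ∃ m ≤ n, (nx (BB R))^[m] p = q ∧ ∀ i < m, (nx (BB R))^[i] p ≠ q := by
  classical
  have hex : ∃ m, (nx (BB R))^[m] p = q := ⟨n, hn⟩
  exact ⟨Nat.find hex, Nat.find_min' hex hn, Nat.find_spec hex, fun i hi => Nat.find_min hex hi⟩

lemma vx_TF {R : ℤ} {a : ℤ × ℤ} (h : TF R a) : inB (-R) R (-R) R (vx a) := by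
  have h1 := BC_TF h
  unfold BC at h1
  unfold inB vx
  simp only
  omega

/-- **PB1** -/
theorem pb1 : PB1 := by
  intro R D w a b x hR ha hb hO hW hc hx1 hx2
  obtain ⟨n0, hn0, hnear0⟩ := hW
  obtain ⟨n, hnn, hn, hmin⟩ := min_walk hn0
  obtain ⟨L1, h1⟩ := pch_co hc
  have hxB : inB (-R) R (-R) R x := by
    rw [abs_le] at hx1 hx2
    exact ⟨hx1, hx2⟩
  obtain ⟨L2, h2⟩ := pch_co (Bx_conn hxB (vx_TF ha))
  have hclo : Clo (L1 ++ L2) := by
    refine ⟨fun st hst => ?_, fun g => ?_⟩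
    · rcases List.mem_append.1 hst with h | h
      · exact h1.unit st h
      · exact h2.unit st h
    · rw [List.map_append, List.sum_append, h1.sum, h2.sum]; ring
  have hQ1 : ∀ t, t ∈ w \ BB R → t ∉ BB R := fun t ht => (mem_sdiff.1 ht).2
  have e1 : Wd (L1 ++ L2) b = Wd (L1 ++ L2) a := by
    apply Wd_out hO hclo
    intro c hcB
    rw [Cx_append, h1.open_zero, h2.open_zero (Or.inr hcB)]
    · norm_num
    · by_cases hw : lab c ∈ w
      · exact Or.inl hw
      · exact Or.inr fun h => hw (mem_sdiff.1 h).1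
  have e2 := Wd_strand (w := BB R) hclo b n
  rw [hn, e1, sub_self] at e2
  have e3 : ∀ i ∈ range n, Cx (L1 ++ L2) ((nx (BB R))^[i] b) (nx (BB R) ((nx (BB R))^[i] b)) =
      Cx L1 ((nx (BB R))^[i] b) (nx (BB R) ((nx (BB R))^[i] b)) := by
    intro i _
    rw [Cx_append, h2.open_zero, add_zero]
    by_cases h : lab ((nx (BB R))^[i] b) ∈ BB R
    · exact Or.inl h
    · exact Or.inr h
  rw [sum_congr rfl e3, sum_Cx (g := pot R b n), h1.sum] at e2
  · have e4 : pot R b n (vc (vx a)) = 1 := by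
      unfold pot
      rw [if_pos ⟨n, le_rfl, by rw [hn]⟩]
    rw [e4] at e2
    have e5 : ∃ j ≤ n, vc x = vc (vx ((nx (BB R))^[j] b)) := by
      by_contra hcon
      have e6 : pot R b n (vc x) = 0 := by
        unfold pot
        rw [if_neg hcon]
      rw [e6] at e2
      norm_num at e2
    obtain ⟨j, hj, h3⟩ := e5
    rw [vc_inj h3]
    exact hnear0 j (hj.trans hnn)
  · intro st hst
    exact cx_sum hR hb ha hn hmin hQ1 (h1.typ st hst) (h1.unit st hst)

lemma BC_fi {R : ℤ} {c : ℤ × ℤ} (h : BC R c) : ¬ inB (-R + 1) R (-R + 1) R (fi c) := by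
  unfold BC at h
  unfold inB fi
  simp only
  omega

/-- **PB2** -/
theorem pb2 : PB2 := by
  intro R D w F a b f e hR ha hb hO hW hc he hef
  obtain ⟨n, hn, hnear⟩ := hW
  obtain ⟨L1, h1⟩ := pch_dco hc
  obtain ⟨f1, hf1, hu1⟩ := exists_int hR he
  obtain ⟨f2, hf2, hu2⟩ := exists_int hR ha.1
  obtain ⟨L2, h2⟩ := pch_int hf1 hf2
  have hodd : ∀ {t : ℤ × ℤ}, t ∈ BB R → (t.1 + t.2) % 2 = 1 := fun ht => (mem_BB.1 ht).2.2
  have hua : IsUnit4 (fc (fi a) - lab a) := (lab_coord a).2.2.2.2.2.2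
  -- the chain in the box
  have h3 : PCh (PI R) (TT (· ∈ BB R)) ([(e, fc f1)] ++ L2 ++ [(fc f2, lab a)]) e (lab a) :=
    ((pch_single hu1 (Or.inr ⟨⟨hodd he, he⟩, f1, rfl, hf1⟩)).append h2).append
      (pch_single (unit_neg hu2) (Or.inl ⟨⟨f2, rfl, hf2⟩, hodd ha.1, ha.1⟩))
  set L3 := [(e, fc f1)] ++ L2 ++ [(fc f2, lab a)] with hL3
  set L := L1 ++ ([(fc f, e)] ++ (L3 ++ [(lab a, fc (fi a))])) with hLdef
  have h4 : PCh PF (TT (· ∈ BB R)) [(fc f, e)] (fc f) e :=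
    pch_single hef (Or.inl ⟨⟨f, rfl⟩, hodd he, he⟩)
  have h5 : PCh PF (TT (· ∈ BB R)) [(lab a, fc (fi a))] (lab a) (fc (fi a)) :=
    pch_single hua (Or.inr ⟨⟨hodd ha.1, ha.1⟩, fi a, rfl⟩)
  have h3' : PCh PF (TT (· ∈ BB R)) L3 e (lab a) :=
    h3.mono (fun x hx => ⟨hx.choose, hx.choose_spec.1⟩) (fun x hx => hx)
  have h6 := h4.append (h3'.append h5)
  have hclo : Clo L := by
    refine ⟨fun st hst => ?_, fun g => ?_⟩
    · rcases List.mem_append.1 hst with h | h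
      · exact h1.unit st h
      · exact h6.unit st h
    · rw [hLdef, List.map_append, List.sum_append, h1.sum, h6.sum]; ring
  have e1 : Wd L b = Wd L a := by
    apply Wd_out hO hclo
    intro c hcB
    rw [hLdef, Cx_append, h1.dual_zero, h6.dual_zero (Or.inr hcB)]
    · norm_num
    · by_cases hw : lab c ∈ w
      · exact Or.inr fun h => h (mem_union_left _ hw)
      · exact Or.inl hw
  have e2 := Wd_strand (w := BB R) hclo a n
  rw [hn, e1, sub_self] at e2
  by_contra hcon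
  have hno : ∀ i < n, ¬ (lab ((nx (BB R))^[i] a) = e ∧ fi ((nx (BB R))^[i] a) = f) := by
    rintro i hi ⟨-, h⟩
    apply hcon
    have h7 := hnear i hi.le
    rw [← h]
    set c := (nx (BB R))^[i] a
    unfold fi
    unfold vx at h7 ⊢
    simp only [abs_le] at h7 ⊢
    omega
  have e3 : ∀ i ∈ range n, Cx L ((nx (BB R))^[i] a) (nx (BB R) ((nx (BB R))^[i] a)) =
      - (if lab a = lab ((nx (BB R))^[i] a) ∧ fi a = fi ((nx (BB R))^[i] a) then 1 else 0) := by
    intro i hi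
    set c := (nx (BB R))^[i] a with hcdef
    have hBC := BC_iter hR (BC_TF ha) i
    rw [← hcdef] at hBC
    by_cases hl : lab c ∈ BB R
    · have k1 : Cx L1 c (nx (BB R) c) = 0 :=
        h1.dual_zero (Or.inr fun h => h (mem_union_right _ hl))
      have k3 : Cx L3 c (nx (BB R) c) = 0 := by
        apply Cx_eq_zero
        intro st hst
        rw [cx_nx, if_pos hl]
        rcases h3.typ st hst with ⟨⟨g, g1, g2⟩, g3⟩ | ⟨g3, ⟨g, g1, g2⟩⟩
        · rw [g1, if_neg, if_neg]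
          · norm_num
          · rintro ⟨-, g4⟩
            exact TT_ne_fc g3 _ g4
          · rintro ⟨g4, -⟩
            exact BC_fi hBC (fc_inj g4 ▸ g2)
        · rw [g1, if_neg, if_neg]
          · norm_num
          · rintro ⟨-, g4⟩
            exact BC_fi hBC (fc_inj g4 ▸ g2)
          · rintro ⟨g4, -⟩
            exact TT_ne_fc g3 _ g4
      have k2 : Cx [(fc f, e)] c (nx (BB R) c) = 0 := by
        apply Cx_eq_zero
        intro st hst
        rw [List.mem_singleton] at hst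
        rw [hst, cx_nx, if_pos hl, if_neg, if_neg]
        · norm_num
        · rintro ⟨g4, -⟩
          have g4' : fc f = lab c := g4
          exact absurd (fc_odd f) (by rw [g4']; have := hodd hl; omega)
        · rintro ⟨g4, g5⟩
          exact hno i (mem_range.1 hi) ⟨g5.symm, (fc_inj g4).symm⟩
      have k4 : Cx [(lab a, fc (fi a))] c (nx (BB R) c) =
          - (if lab a = lab c ∧ fi a = fi c then 1 else 0) := by
        unfold Cx
        rw [List.map_singleton, List.sum_singleton, cx_nx, if_pos hl, if_neg]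
        · by_cases g : lab a = lab c ∧ fi a = fi c
          · rw [if_pos g, if_pos ⟨g.1, by rw [g.2]⟩]; norm_num
          · rw [if_neg g, if_neg]
            · norm_num
            · rintro ⟨g1, g2⟩
              exact g ⟨g1, fc_inj g2⟩
        · rintro ⟨g4, -⟩
          have g4' : lab a = fc (fi c) := g4
          exact absurd (fc_odd (fi c)) (by rw [← g4']; have := hodd ha.1; omega)
      rw [hLdef, Cx_append, Cx_append, Cx_append, k1, k2, k3, k4]
      ring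
    · rw [hLdef, Cx_append, h1.dual_zero (Or.inl hl), h6.dual_zero (Or.inl hl), if_neg]
      · norm_num
      · rintro ⟨g1, -⟩
        exact hl (g1 ▸ ha.1)
  rw [sum_congr rfl e3, sum_neg_distrib] at e2
  have hn0 : 0 < n := by
    rcases Nat.eq_zero_or_pos n with h | h
    · exfalso
      rw [h] at hn
      have h7 : a = b := hn
      exact hb.2 (h7 ▸ ha.1)
    · exact h
  have e4 : (1 : ℤ) ≤ ∑ i ∈ range n,
      (if lab a = lab ((nx (BB R))^[i] a) ∧ fi a = fi ((nx (BB R))^[i] a) then (1 : ℤ) else 0) := by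
    calc (1 : ℤ) = (if lab a = lab ((nx (BB R))^[0] a) ∧ fi a = fi ((nx (BB R))^[0] a)
          then (1 : ℤ) else 0) := by simp
      _ ≤ _ := single_le_sum (f := fun i => (if lab a = lab ((nx (BB R))^[i] a) ∧
          fi a = fi ((nx (BB R))^[i] a) then (1 : ℤ) else 0)) (fun i _ => by
            split_ifs <;> norm_num) (mem_range.2 hn0)
  linarith

end Pool.Agent.H99.ZF
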